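import Mathlib
import Pool.Agent.Helper26.HI.FinPre

set_option autoImplicit false

namespace Pool.Agent.Results.MP_295d38_ag.EverySurjectiveMap

open MvPolynomial

/-- The indices of the coefficients of `k` pairs `(Fₐ, Gₐ)` of polynomials in one variable, of
degree at most `d a`: the number `a`, `0` for `Fₐ` and `1` for `Gₐ`, and the exponent. -/
abbrev CoeffIndex {k : ℕ} (d : Fin k → ℕ) : Type := Σ a : Fin k, Fin 2 × Fin (d a + 1)

/-- The rational function `φₐ = Fₐ / Gₐ` in homogeneous coordinates: the vector `(x, y)` is mapped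
to `(Fₐ(x, y), Gₐ(x, y))`, the polynomials being homogenised to the degree `d a`. -/
def ratMap {k : ℕ} {d : Fin k → ℕ} (c : CoeffIndex d → ℂ) (a : Fin k) (x : Fin 2 → ℂ) :
    Fin 2 → ℂ :=
  fun i => ∑ j : Fin (d a + 1), c ⟨a, (i, j)⟩ * x 0 ^ (j : ℕ) * x 1 ^ (d a - j)

/-- The rational functions `φₐ` have degree `d a`: numerator and denominator have no common zero on
the projective line. -/
def HasDegree {k : ℕ} {d : Fin k → ℕ} (c : CoeffIndex d → ℂ) : Prop :=
  ∀ (a : Fin k) (x : Fin 2 → ℂ), ratMap c a x = 0 → x = 0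

/-- The endomorphism `x ↦ (φ₁(x_{π(1)}), ..., φₖ(x_{π(k)}))` of `(ℙ¹)ᵏ`, in homogeneous
coordinates. -/
def endo {k : ℕ} {d : Fin k → ℕ} (c : CoeffIndex d → ℂ) (π : Fin k → Fin k)
    (x : Fin k → Fin 2 → ℂ) : Fin k → Fin 2 → ℂ :=
  fun a => ratMap c a (x (π a))

/-- The variables of `G` are the homogeneous coordinates of the points of `(ℙ¹)ᵏ`, and all monomials
of `G` have the same degree in the `b`-th pair of variables, for each `b`. -/
def IsMultihomogeneous {k : ℕ} (G : MvPolynomial (Fin k × Fin 2) ℂ) : Prop :=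
  ∃ g : Fin k → ℕ, ∀ t ∈ G.support, ∀ b, ∑ i, t (b, i) = g b

/-- The return set `{n : Φⁿ(α) ∈ V}` of the endomorphism `Φ = endo c π`, the point `α` of `(ℙ¹)ᵏ`
given by homogeneous coordinates, and the closed subset `V` of `(ℙ¹)ᵏ` cut out by the forms in the
set `V`. -/
def returnSet {k : ℕ} {d : Fin k → ℕ} (c : CoeffIndex d → ℂ) (π : Fin k → Fin k)
    (α : Fin k → Fin 2 → ℂ) (V : Set (MvPolynomial (Fin k × Fin 2) ℂ)) : Set ℕ :=
  {n | ∀ G ∈ V, eval (fun q => (endo c π)^[n] α q.1 q.2) G = 0}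

/-- `a` and `b` lie in one cycle of the map `π`. -/
def InOneCycle {k : ℕ} (π : Fin k → Fin k) (a b : Fin k) : Prop :=
  (∃ m : ℕ, π^[m + 1] a = b) ∧ ∃ m : ℕ, π^[m] b = a

/-- **The dynamical Mordell-Lang conjecture for every surjective endomorphism of `(ℙ¹)ᵏ`, all subvarieties,
general points.** Let `φ₁, ..., φₖ` be any rational functions of degrees `d a ≥ 1` over a subfield `K` of `ℂ`,
`π` a self-map of `{1, ..., k}` and `Φ(x) = (φ₁(x_{π(1)}), ..., φₖ(x_{π(k)}))`, an endomorphism of `(ℙ¹)ᵏ` (all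
surjective endomorphisms have this form). Let `ℓ ≥ k` be a prime number which is larger than `2 d a - 2` for all
`a`. Then for all closed subsets `V` of `(ℙ¹)ᵏ` over `ℂ` and all points `α` with coordinates transcendental over
`K` or of degree over `K` divisible by `ℓ` the return set `{n : Φⁿ(α) ∈ V}` is a finite union of arithmetic
progressions. (Only the coordinates `α b` with `b` in a cycle of `π` which contains the number `a` of a rational
function of degree at least two must be so. The coordinate of `∞` is read as `0` here, of degree one.) -/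
theorem result {k : ℕ} (d : Fin k → ℕ) (hd : ∀ a, 1 ≤ d a) (c : CoeffIndex d → ℂ)
    (hdeg : HasDegree c) (π : Fin k → Fin k) (K : Subfield ℂ) (hc : ∀ q, c q ∈ K)
    (ℓ : ℕ) (hℓ : ℓ.Prime) (hℓd : ∀ a, 2 * d a - 2 < ℓ) (hℓk : k ≤ ℓ)
    (α : Fin k → Fin 2 → ℂ) (hα : ∀ b, α b ≠ 0)
    (h : ∀ b, (∃ a, InOneCycle π a b ∧ 2 ≤ d a) → Transcendental K (α b 0 / α b 1) ∨
      ℓ ∣ (minpoly K (α b 0 / α b 1)).natDegree)
    (V : Set (MvPolynomial (Fin k × Fin 2) ℂ)) (hV : ∀ G ∈ V, IsMultihomogeneous G) :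
    ∃ P : Finset (ℕ × ℕ), returnSet c π α V = {n | ∃ q ∈ P, ∃ j, n = q.1 + q.2 * j} :=
  Pool.Agent.Helper26.HI.formM' K d hd c hc hdeg π α hα (Or.inl ⟨ℓ, hℓ, hℓd, hℓk, h⟩) V hV

end Pool.Agent.Results.MP_295d38_ag.EverySurjectiveMap
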