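import Mathlib
import Pool.Agent.Helper10.TH2.Fin

set_option autoImplicit false

namespace Pool.Agent.Results.MP_295d38_ag.OutsideThinSet

open MvPolynomial

/-- The indices of the coefficients of `s` pairs `(Fₐ, Gₐ)` of polynomials in one variable, of
degree at most `d a`: the number `a`, `0` for `Fₐ` and `1` for `Gₐ`, and the exponent. -/
abbrev CoeffIndex {s : ℕ} (d : Fin s → ℕ) : Type := Σ a : Fin s, Fin 2 × Fin (d a + 1)

/-- The rational function `φₐ = Fₐ / Gₐ` in homogeneous coordinates: the vector `(x, y)` is mapped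
to `(Fₐ(x, y), Gₐ(x, y))`, the polynomials being homogenised to the degree `d a`. -/
def ratMap {s : ℕ} {d : Fin s → ℕ} (c : CoeffIndex d → ℂ) (a : Fin s) (x : Fin 2 → ℂ) :
    Fin 2 → ℂ :=
  fun i => ∑ j : Fin (d a + 1), c ⟨a, (i, j)⟩ * x 0 ^ (j : ℕ) * x 1 ^ (d a - j)

/-- The rational functions `φₐ` have degree `d a`: numerator and denominator have no common zero on
the projective line. -/
def HasDegree {s : ℕ} {d : Fin s → ℕ} (c : CoeffIndex d → ℂ) : Prop :=
  ∀ (a : Fin s) (x : Fin 2 → ℂ), ratMap c a x = 0 → x = 0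

/-- The endomorphism `x ↦ (φ_{A(1)}(x_{π(1)}), ..., φ_{A(k)}(x_{π(k)}))` of `(ℙ¹)ᵏ`, in homogeneous
coordinates. -/
def endo {s : ℕ} {d : Fin s → ℕ} (c : CoeffIndex d → ℂ) {k : ℕ} (A : Fin k → Fin s)
    (π : Fin k → Fin k) (x : Fin k → Fin 2 → ℂ) : Fin k → Fin 2 → ℂ :=
  fun b => ratMap c (A b) (x (π b))

/-- The variables of `G` are the homogeneous coordinates of the points of `(ℙ¹)ᵏ`, and all monomials
of `G` have the same degree in the `b`-th pair of variables, for each `b`. -/
def IsMultihomogeneous {k : ℕ} (G : MvPolynomial (Fin k × Fin 2) ℂ) : Prop :=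
  ∃ g : Fin k → ℕ, ∀ t ∈ G.support, ∀ b, ∑ i, t (b, i) = g b

/-- The return set `{n : Φⁿ(α) ∈ V}` of the endomorphism `Φ = endo c A π`, the point `α` of `(ℙ¹)ᵏ`
given by homogeneous coordinates, and the closed subset `V` of `(ℙ¹)ᵏ` cut out by the forms in the
set `V`. -/
def returnSet {s : ℕ} {d : Fin s → ℕ} (c : CoeffIndex d → ℂ) {k : ℕ} (A : Fin k → Fin s)
    (π : Fin k → Fin k) (α : Fin k → Fin 2 → ℂ) (V : Set (MvPolynomial (Fin k × Fin 2) ℂ)) :
    Set ℕ :=
  {n | ∀ G ∈ V, eval (fun q => (endo c A π)^[n] α q.1 q.2) G = 0}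

/-- The coordinates of the point `α` lie in an extension `M` of degree at most `D` of a purely
transcendental extension `E` of the field `L`. -/
def DegreeLE {k : ℕ} (L : Subfield ℂ) (D : ℕ) (α : Fin k → Fin 2 → ℂ) : Prop :=
  ∃ (r : ℕ) (t : Fin r → ℂ) (E : Subfield ℂ) (M : IntermediateField E ℂ),
    AlgebraicIndependent L t ∧ E = Subfield.closure ((L : Set ℂ) ∪ Set.range t) ∧
      FiniteDimensional E M ∧ Module.finrank E M ≤ D ∧ ∀ b i, α b i ∈ M

/-- A subset `T` of the affine space `K ^ I` is **thin** (Serre): it is contained in the union of the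
zeros of a nonzero polynomial `Ψ` and of finitely many sets of the points `c` at which `Q(c, X)` has
a root in `K`, where `Q` is a polynomial of degree at least two in `X` which is irreducible over the
field of rational functions. -/
def IsThin {K : Type} [Field K] {I : Type} (T : Set (I → K)) : Prop :=
  ∃ (Ψ : MvPolynomial I K) (S : Finset (Polynomial (MvPolynomial I K))), Ψ ≠ 0 ∧
    (∀ Q ∈ S, 2 ≤ Q.natDegree ∧ Irreducible (Q.map (algebraMap (MvPolynomial I K)
      (FractionRing (MvPolynomial I K))))) ∧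
    ∀ c ∈ T, eval c Ψ = 0 ∨ ∃ Q ∈ S, ∃ x : K, Q.eval₂ (eval c) x = 0

/-- **The dynamical Mordell-Lang conjecture holds completely for the endomorphisms of `(ℙ¹)ᵏ` given
by rational functions outside a thin set, over any field.**
Let `K` be a field of characteristic zero, `d 1, ..., d s ≥ 2`. There is a thin set `T` of
coefficient vectors over `K` such that for every `s`-tuple of rational functions `φ₁, ..., φₛ` over
`K` with coefficients outside `T` and for every embedding of `K` in `ℂ`: `φₐ` has degree `d a`, and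
for all `k`, all endomorphisms `Φ = (φ_{A(1)}(x_{π(1)}), ..., φ_{A(k)}(x_{π(k)}))` of `(ℙ¹)ᵏ`, all
points `α` and all closed subsets `V` of `(ℙ¹)ᵏ` over `ℂ` the return set is a finite union of
arithmetic progressions. (If `K` is Hilbertian, for instance finitely generated, then `K ^ n` is not
thin; over number fields thin sets have density zero.)
If `K` is a finitely generated field, then there are also constants, depending on the `φₐ`, such
that for `α` of degree at most `D` over a purely transcendental extension of `K` and `V` cut out by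
forms of degree at most `δ` the return set consists of at most `C k D δ` numbers and of progressions
with difference `Q k D` which start before `n₀ k D + Q k D`. -/
theorem result (K : Type) [Field K] [CharZero K] {s : ℕ} (d : Fin s → ℕ) (hd : ∀ a, 2 ≤ d a) :
    ∃ T : Set (CoeffIndex d → K), IsThin T ∧ ∀ c ∉ T, ∀ σ : K →+* ℂ,
      HasDegree (fun q => σ (c q)) ∧
      (∀ (k : ℕ) (A : Fin k → Fin s) (π : Fin k → Fin k) (α : Fin k → Fin 2 → ℂ), (∀ b, α b ≠ 0) →
        ∀ V : Set (MvPolynomial (Fin k × Fin 2) ℂ), (∀ G ∈ V, IsMultihomogeneous G) →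
          ∃ P : Finset (ℕ × ℕ), returnSet (fun q => σ (c q)) A π α V =
            {n | ∃ q ∈ P, ∃ j, n = q.1 + q.2 * j}) ∧
      ((∃ S : Finset K, Subfield.closure (S : Set K) = ⊤) →
        ∃ (C : ℕ → ℕ → ℕ → ℕ) (n₀ Q : ℕ → ℕ → ℕ), (∀ k D, 1 ≤ Q k D) ∧
        ∀ (k D δ : ℕ) (A : Fin k → Fin s) (π : Fin k → Fin k) (α : Fin k → Fin 2 → ℂ),
          (∀ b, α b ≠ 0) → DegreeLE σ.fieldRange D α →
          ∀ V : Set (MvPolynomial (Fin k × Fin 2) ℂ), (∀ G ∈ V, IsMultihomogeneous G) →
            (∀ G ∈ V, G.totalDegree ≤ δ) →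
            ∃ E P : Finset ℕ, E.card ≤ C k D δ ∧ (∀ a ∈ P, a < n₀ k D + Q k D) ∧
              returnSet (fun q => σ (c q)) A π α V =
                {n | n ∈ E ∨ ∃ a ∈ P, ∃ j, n = a + Q k D * j}) := by
  refine ⟨_, Pool.Agent.Helper10.TH2.main K d hd, fun c hc σ => ?_⟩
  obtain ⟨h1, h2, h⟩ := not_not.1 hc σ
  refine ⟨h1, h2, fun hK => ?_⟩
  obtain ⟨C, W, Q, hQ, h3⟩ := h hK
  refine ⟨C, W, Q, hQ, fun k D δ A π α hα hD V hV hδ => ?_⟩
  obtain ⟨r, t, E, M, ht, hEt, hMfin, hMD, hαM⟩ := hD
  exact h3 k D δ A π E ⟨r, t, ht, hEt⟩ M hMfin hMD α hα hαM V hV hδ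

end Pool.Agent.Results.MP_295d38_ag.OutsideThinSet
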